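import Mathlib

open Set Filter Topology Matrix

namespace Pool.Agent.Results.MP_55559b_an.NotProjExposed

/-- The spectrahedral cone `{x : x₁A₁ + ⋯ + xₙAₙ ⪰ 0}`. -/
def specCone {n m : ℕ} (A : Fin n → Matrix (Fin m) (Fin m) ℝ) : Set (Fin n → ℝ) :=
  {x | (∑ i, x i • A i).PosSemidef}

/-- A closed convex cone in `ℝⁿ`. -/
def IsClosedConvexCone {n : ℕ} (S : Set (Fin n → ℝ)) : Prop :=
  IsClosed S ∧ Convex ℝ S ∧ (0 : Fin n → ℝ) ∈ S ∧ ∀ c : ℝ, 0 ≤ c → ∀ x ∈ S, c • x ∈ S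

/-- `F` is a face of the cone `K`. -/
def IsFace {n : ℕ} (K F : Set (Fin n → ℝ)) : Prop :=
  F ⊆ K ∧ IsClosedConvexCone F ∧ ∀ x ∈ K, ∀ y ∈ K, x + y ∈ F → x ∈ F ∧ y ∈ F

/-- `F` is the image of `K` under a (not necessarily orthogonal) linear projection. -/
def ProjExposed {n : ℕ} (K F : Set (Fin n → ℝ)) : Prop :=
  ∃ P : (Fin n → ℝ) →ₗ[ℝ] (Fin n → ℝ), P ∘ₗ P = P ∧ P '' K = F

/-- The five matrices; the pencil is
`[[t+v,0,x,0,0],[0,t-v,y,0,0],[x,y,t,0,0],[0,0,0,t,v],[0,0,0,v,u]]`. -/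
def A : Fin 5 → Matrix (Fin 5) (Fin 5) ℝ :=
  ![!![1,0,0,0,0; 0,1,0,0,0; 0,0,1,0,0; 0,0,0,1,0; 0,0,0,0,0],
    !![0,0,1,0,0; 0,0,0,0,0; 1,0,0,0,0; 0,0,0,0,0; 0,0,0,0,0],
    !![0,0,0,0,0; 0,0,1,0,0; 0,1,0,0,0; 0,0,0,0,0; 0,0,0,0,0],
    !![0,0,0,0,0; 0,0,0,0,0; 0,0,0,0,0; 0,0,0,0,0; 0,0,0,0,1],
    !![1,0,0,0,0; 0,-1,0,0,0; 0,0,0,0,0; 0,0,0,0,1; 0,0,0,1,0]]

theorem A_symm (i : Fin 5) : (A i).IsSymm := by
  fin_cases i <;> (ext a b; fin_cases a <;> fin_cases b <;> simp [A])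

theorem quad (x z : Fin 5 → ℝ) :
    star z ⬝ᵥ ((∑ i, x i • A i) *ᵥ z) =
      (x 0 + x 4) * z 0 ^ 2 + (x 0 - x 4) * z 1 ^ 2 + x 0 * z 2 ^ 2 + 2 * x 1 * z 0 * z 2 +
        2 * x 2 * z 1 * z 2 + x 0 * z 3 ^ 2 + 2 * x 4 * z 3 * z 4 + x 3 * z 4 ^ 2 := by
  simp [A, Fin.sum_univ_five, dotProduct, mulVec, Matrix.add_apply]
  ring

theorem mem_iff (x : Fin 5 → ℝ) :
    x ∈ specCone A ↔ ∀ z : Fin 5 → ℝ, 0 ≤
      (x 0 + x 4) * z 0 ^ 2 + (x 0 - x 4) * z 1 ^ 2 + x 0 * z 2 ^ 2 + 2 * x 1 * z 0 * z 2 +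
        2 * x 2 * z 1 * z 2 + x 0 * z 3 ^ 2 + 2 * x 4 * z 3 * z 4 + x 3 * z 4 ^ 2 := by
  unfold specCone
  rw [mem_ofPred_eq, posSemidef_iff_dotProduct_mulVec]
  constructor
  · intro h z
    rw [← quad]
    exact h.2 z
  · intro h
    refine ⟨?_, fun z => ?_⟩
    · ext a b
      rw [conjTranspose_apply, Matrix.sum_apply, Matrix.sum_apply, star_trivial]
      refine Finset.sum_congr rfl (fun i _ => ?_)
      rw [Matrix.smul_apply, Matrix.smul_apply, (A_symm i).apply]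
    · rw [quad]
      exact h z

/-- The face `K ∩ {u = 0}`. -/
def F : Set (Fin 5 → ℝ) := {x | x ∈ specCone A ∧ x 3 = 0}

theorem smul_mem (c : ℝ) (hc : 0 ≤ c) (x : Fin 5 → ℝ) (hx : x ∈ specCone A) :
    c • x ∈ specCone A := by
  rw [mem_iff] at hx ⊢
  intro z
  have := mul_nonneg hc (hx z)
  simp only [Pi.smul_apply, smul_eq_mul]
  nlinarith [this]

theorem add_mem (x y : Fin 5 → ℝ) (hx : x ∈ specCone A) (hy : y ∈ specCone A) :
    x + y ∈ specCone A := by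
  rw [mem_iff] at hx hy ⊢
  intro z
  have := add_nonneg (hx z) (hy z)
  simp only [Pi.add_apply]
  nlinarith [this]

theorem closed : IsClosed (specCone A) := by
  have h : specCone A = ⋂ z : Fin 5 → ℝ, {x | 0 ≤
      (x 0 + x 4) * z 0 ^ 2 + (x 0 - x 4) * z 1 ^ 2 + x 0 * z 2 ^ 2 + 2 * x 1 * z 0 * z 2 +
        2 * x 2 * z 1 * z 2 + x 0 * z 3 ^ 2 + 2 * x 4 * z 3 * z 4 + x 3 * z 4 ^ 2} := by
    ext x
    rw [mem_iff]
    simp
  rw [h]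
  refine isClosed_iInter (fun z => isClosed_le continuous_const ?_)
  fun_prop

theorem u_nonneg (x : Fin 5 → ℝ) (hx : x ∈ specCone A) : 0 ≤ x 3 := by
  rw [mem_iff] at hx
  simpa using hx ![0, 0, 0, 0, 1]

theorem v_zero (x : Fin 5 → ℝ) (hx : x ∈ specCone A) (h3 : x 3 = 0) : x 4 = 0 := by
  rw [mem_iff] at hx
  have h0 := hx ![0, 0, 0, 1, 0]
  simp at h0
  by_contra hne
  have h1 := hx ![0, 0, 0, 1, -(x 0 + 1) / (2 * x 4)]
  simp [h3] at h1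
  have h2 : 2 * x 4 * ((-1 + -x 0) / (2 * x 4)) = -(x 0 + 1) := by
    field_simp
    ring
  linarith [h1, h2]

theorem face : IsFace (specCone A) F := by
  refine ⟨fun x hx => hx.1, ⟨?_, ?_, ?_, ?_⟩, ?_⟩
  · exact closed.inter (isClosed_eq (continuous_apply 3) continuous_const)
  · rintro x ⟨hx, hx3⟩ y ⟨hy, hy3⟩ a b ha hb hab
    refine ⟨add_mem _ _ (smul_mem a ha x hx) (smul_mem b hb y hy), ?_⟩
    simp [hx3, hy3]
  · refine ⟨?_, rfl⟩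
    rw [mem_iff]
    intro z
    simp
  · rintro c hc x ⟨hx, hx3⟩
    refine ⟨smul_mem c hc x hx, ?_⟩
    simp [hx3]
  · rintro x hx y hy ⟨_, hxy⟩
    have h1 := u_nonneg x hx
    have h2 := u_nonneg y hy
    have h3 : x 3 + y 3 = 0 := hxy
    exact ⟨⟨hx, by linarith⟩, ⟨hy, by linarith⟩⟩

/-- First family of test points. -/
theorem fam1 (s v : ℝ) (hs : s ^ 2 = 1 + v) (hv : v ≤ 1) :
    ![1, s, 0, v ^ 2, v] ∈ specCone A := by
  rw [mem_iff]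
  intro z
  have h1 : 0 ≤ (s * z 0 + z 2) ^ 2 + (1 - v) * z 1 ^ 2 + (z 3 + v * z 4) ^ 2 := by
    have : 0 ≤ (1 - v) * z 1 ^ 2 := mul_nonneg (by linarith) (sq_nonneg _)
    positivity
  have h2 : (s * z 0 + z 2) ^ 2 = (1 + v) * z 0 ^ 2 + 2 * s * z 0 * z 2 + z 2 ^ 2 := by
    rw [← hs]; ring
  simp
  nlinarith [h1, h2]

/-- Second family of test points. -/
theorem fam2 (s v : ℝ) (hs : s ^ 2 = 1 - v) (hv : -1 ≤ v) :
    ![1, 0, s, v ^ 2, v] ∈ specCone A := by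
  rw [mem_iff]
  intro z
  have h1 : 0 ≤ (s * z 1 + z 2) ^ 2 + (1 + v) * z 0 ^ 2 + (z 3 + v * z 4) ^ 2 := by
    have : 0 ≤ (1 + v) * z 0 ^ 2 := mul_nonneg (by linarith) (sq_nonneg _)
    positivity
  have h2 : (s * z 1 + z 2) ^ 2 = (1 - v) * z 1 ^ 2 + 2 * s * z 1 * z 2 + z 2 ^ 2 := by
    rw [← hs]; ring
  simp
  nlinarith [h1, h2]

theorem F_bound (x : Fin 5 → ℝ) (hx : x ∈ F) :
    x 1 ≤ x 0 ∧ -x 1 ≤ x 0 ∧ x 2 ≤ x 0 ∧ -x 2 ≤ x 0 := by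
  obtain ⟨hx, h3⟩ := hx
  have h4 := v_zero x hx h3
  rw [mem_iff] at hx
  have a1 := hx ![1, 0, -1, 0, 0]
  have a2 := hx ![1, 0, 1, 0, 0]
  have a3 := hx ![0, 1, -1, 0, 0]
  have a4 := hx ![0, 1, 1, 0, 0]
  simp [h4] at a1 a2 a3 a4
  refine ⟨?_, ?_, ?_, ?_⟩ <;> linarith

theorem not_proj : ¬ ProjExposed (specCone A) F := by
  rintro ⟨P, hP, hF⟩
  have hfix : ∀ x ∈ F, P x = x := by
    intro x hx
    rw [← hF] at hx
    obtain ⟨k, _, rfl⟩ := hx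
    have := congrArg (fun L : (Fin 5 → ℝ) →ₗ[ℝ] (Fin 5 → ℝ) => L k) hP
    simpa using this
  have hmem : ∀ x ∈ specCone A, P x ∈ F := by
    intro x hx
    rw [← hF]
    exact ⟨x, hx, rfl⟩
  -- the basis vectors
  have e1 : P ![1, 1, 0, 0, 0] = ![1, 1, 0, 0, 0] := by
    refine hfix _ ⟨?_, by simp⟩
    have := fam1 1 0 (by norm_num) (by norm_num)
    simpa using this
  have e2 : P ![1, -1, 0, 0, 0] = ![1, -1, 0, 0, 0] := by
    refine hfix _ ⟨?_, by simp⟩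
    have := fam1 (-1) 0 (by norm_num) (by norm_num)
    simpa using this
  have e3 : P ![1, 0, 1, 0, 0] = ![1, 0, 1, 0, 0] := by
    refine hfix _ ⟨?_, by simp⟩
    have := fam2 1 0 (by norm_num) (by norm_num)
    simpa using this
  set a : Fin 5 → ℝ := P ![0, 0, 0, 1, 0] with ha
  set b : Fin 5 → ℝ := P ![0, 0, 0, 0, 1] with hb
  have hval1 : ∀ s v : ℝ, P ![1, s, 0, v ^ 2, v] =
      ![1, s, 0, 0, 0] + v ^ 2 • a + v • b := by
    intro s v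
    have h1 : (![1, s, 0, v ^ 2, v] : Fin 5 → ℝ) = ((1 + s) / 2) • ![1, 1, 0, 0, 0] +
        ((1 - s) / 2) • ![1, -1, 0, 0, 0] + v ^ 2 • ![0, 0, 0, 1, 0] +
        v • ![0, 0, 0, 0, 1] := by
      ext i; fin_cases i <;> simp <;> ring
    rw [h1, map_add, map_add, map_add, map_smul, map_smul, map_smul, map_smul, e1, e2]
    congr 2
    ext i; fin_cases i <;> simp <;> ring
  have hval2 : ∀ s v : ℝ, P ![1, 0, s, v ^ 2, v] =
      ![1, 0, s, 0, 0] + v ^ 2 • a + v • b := by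
    intro s v
    have h1 : (![1, 0, s, v ^ 2, v] : Fin 5 → ℝ) = ((1 - s) / 2) • ![1, 1, 0, 0, 0] +
        ((1 - s) / 2) • ![1, -1, 0, 0, 0] + s • ![1, 0, 1, 0, 0] +
        v ^ 2 • ![0, 0, 0, 1, 0] + v • ![0, 0, 0, 0, 1] := by
      ext i; fin_cases i <;> simp <;> ring
    rw [h1, map_add, map_add, map_add, map_add, map_smul, map_smul, map_smul, map_smul,
      map_smul, e1, e2, e3]
    congr 2
    ext i; fin_cases i <;> simp <;> ring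
  -- the small parameter
  set w : ℝ := 1 / (10 * (1 + |a 0|)) with hw
  have hpos : 0 < 10 * (1 + |a 0|) := by positivity
  have hw0 : 0 < w := by positivity
  have hw1 : w ≤ 1 / 10 := by
    rw [hw, div_le_div_iff₀ hpos (by norm_num)]
    nlinarith [abs_nonneg (a 0)]
  have hwa : w * |a 0| ≤ 1 / 10 := by
    rw [hw, div_mul_eq_mul_div, div_le_div_iff₀ hpos (by norm_num)]
    nlinarith [abs_nonneg (a 0)]
  set v : ℝ := 2 * w + w ^ 2 with hv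
  have hv1 : v ≤ 1 := by nlinarith
  have hv0 : 0 < v := by positivity
  have p1 := F_bound _ (hmem _ (fam1 (1 + w) v (by rw [hv]; ring) hv1))
  have p2 := F_bound _ (hmem _ (fam1 (-(1 + w)) v (by rw [hv]; ring) hv1))
  have p3 := F_bound _ (hmem _ (fam2 (1 + w) (-v) (by rw [hv]; ring) (by linarith)))
  have p4 := F_bound _ (hmem _ (fam2 (-(1 + w)) (-v) (by rw [hv]; ring) (by linarith)))
  rw [hval1] at p1 p2
  rw [hval2] at p3 p4
  obtain ⟨q1, _, _, _⟩ := p1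
  obtain ⟨_, q2, _, _⟩ := p2
  obtain ⟨_, _, q3, _⟩ := p3
  obtain ⟨_, _, _, q4⟩ := p4
  simp only [Pi.add_apply, Pi.smul_apply, smul_eq_mul] at q1 q2 q3 q4
  simp at q1 q2 q3 q4
  -- summing
  have hsum : w ≤ v ^ 2 * a 0 := by linarith
  have h1 : v ^ 2 * a 0 ≤ v ^ 2 * |a 0| := by
    apply mul_le_mul_of_nonneg_left (le_abs_self _) (by positivity)
  have h2 : v ^ 2 = w * (w * (2 + w) ^ 2) := by rw [hv]; ring
  have h3 : v ^ 2 * |a 0| = w * ((w * |a 0|) * (2 + w) ^ 2) := by rw [h2]; ring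
  have h4 : (w * |a 0|) * (2 + w) ^ 2 < 1 := by
    have h5 : (2 + w) ^ 2 ≤ 5 := by nlinarith
    have h6 : 0 ≤ w * |a 0| := by positivity
    nlinarith
  have h5 : v ^ 2 * |a 0| < w := by
    rw [h3]
    nlinarith
  linarith

/-- There is a spectrahedral cone with a face that is not projectionally exposed. -/
theorem result : ∃ (n m : ℕ) (A : Fin n → Matrix (Fin m) (Fin m) ℝ), (∀ i, (A i).IsSymm) ∧
    ∃ F : Set (Fin n → ℝ), IsFace (specCone A) F ∧ ¬ ProjExposed (specCone A) F :=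
  ⟨5, 5, A, A_symm, F, face, not_proj⟩

end Pool.Agent.Results.MP_55559b_an.NotProjExposed
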